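import Pool.Agent.K6.H7.CM1.Ab

set_option autoImplicit false

/-!
# The period torsors of 1-motives over abelian varieties with complex multiplication

Let `A` be an abelian variety over the field `ℚ̄` of algebraic numbers with complex multiplication: it
is isogenous to a product of abelian varieties `ℂ^{Φ_i} / O_{K_i}`, for a finite family of number
fields `K_i` and of sets `Φ_i` of complex embeddings of `K_i` (which contain one embedding of every
pair of conjugate embeddings). Let `L` be a CM field, Galois over `ℚ`, which contains the conjugates
of the `K_i`. The Hodge group of `A` is a torus. The weights of this torus on `H_1(A)` correspond to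
the embeddings `χ : K_i → L`, and the group of its characters is generated by the weights. It can be
identified with a group of functions on the set of the complex embeddings of `L`: the weight of `χ`
is the function with the value `1` on the embeddings `φ` with `φ ∘ χ ∈ Φ_i`, and `-1` on the others
(`weight`; different embeddings can have the same weight).

We say that `A` has *weight differences* (`HasWeightDifferences`) if every nonzero Galois stable
subspace of the rational space generated by the weights contains the difference of two different
weights. In other words, the torus has no proper subtorus with the same commutant in
`End H_1(A, ℚ)`.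

**Theorem.** Assume that `A` has weight differences, or that `L` is an abelian extension of `ℚ` and
that all CM types of `L` occur among the `Φ_i` (for the indices `i` with `K_i ≅ L`). Then for all
1-motives `M = [ℤ^n → G]` over `A` (with `G` an extension of `A` by `G_m^s`) the Mumford-Tate group
of `M` has no proper algebraic subgroup over `ℚ` with a torsor over `ℚ̄` which contains the comparison
isomorphism of `M`.

The Mumford-Tate group of `M` is the motivic Galois group of `M` (Deligne, Brylinski, André), so that
the theorem says that the comparison isomorphism is not contained in a torsor of a smaller algebraic
group: this is what the period conjecture predicts, since it says that the comparison isomorphism is a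
generic point of the torsor of the motivic Galois group. There are no hypotheses on the points which
define the 1-motive.

Examples of abelian varieties with weight differences:

* the space generated by the weights is an irreducible representation of the Galois group, for example
  if `A` is a power of `ℂ^Φ / O_K` and the Galois group of the CM field `K` of degree `2 g` is
  `{±1}^g ⋊ S_g` or cyclic of order `2^k`, or the product of such varieties for several fields `K_i`
  with different representations;
* `K` contains an imaginary quadratic field `E` and is cyclic over `ℚ` of degree `2 p`, `p` an odd
  prime number, and `A` is the product of `ℂ^Φ / O_K` and of the elliptic curve with multiplication by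
  `E`;
* the case of abelian extensions (this is a part of the theorem): every abelian variety with complex
  multiplication by a product of abelian extensions of `ℚ` is a factor of such a product `A`, for
  example the Jacobians of the Fermat curves.

The periods, the 1-motives, the torsors and the Mumford-Tate group are defined in
`Pool.Agent.N208.OU.Defs` (as in the file `UnitaryOneMotives`), the CM types and the products of the
`ℂ^{Φ_i} / O_{K_i}` in `Pool.Agent.K6.H7.CM1.Dat`, the weights in `Pool.Agent.K6.H7.CM1.Wgt`.

## Proof

Let `G` be an algebraic subgroup of the Mumford-Tate group whose torsor contains the comparison
isomorphism, and let `𝔥` be the image of its Lie algebra in `End H_1(A, ℚ)`, up to the weight. It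
annihilates the Hodge tensors of `A`, so that its elements are given by elements `θ` of `∏ K_i`, and
the tensors `tr_{L/ℚ} (a ∏ χ_l(x_l))` give all linear relations between the conjugates of the
components of `θ` which hold for the Hodge group (`CMData.rel`). By the theorem of Wüstholz
(proved in Lean in the files of `Pool.Agent.Y102`, on which the file `OneMotivesMumfordTate` rests)
`𝔥` acts semisimply with the commutant `End(A) ⊗ ℚ`, and it is closed under the replicas of its
elements. The linear relations between the conjugates of the components of the elements of `𝔥` form a
Galois stable space. If there are more relations than for the Hodge group, then by the assumption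
there is a relation `χ(θ_i) = χ'(θ_j)` for embeddings with different weights, and so the commutant of
`𝔥` is too large. So there are no further relations, and this implies, by duality and by the closure
under replicas, that the complex structure is in `𝔥` (`CMData.J_mem_of`). The unipotent part is treated
in the files of `Pool.Agent.R917`.

For an abelian extension and a nonzero Galois stable space `W` of odd functions there is a nonzero
function in `W` with the values `0`, `1`, `-1` (`Pool.Agent.W537.PC.exists_small`). It is one half
of the difference of the weights of two CM types.
-/

open Module Matrix Pool.Agent.Y102 Pool.Agent.R917.OM Pool.Agent.N208.OneM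
  Pool.Agent.K6.H7.CM1

noncomputable section

namespace Pool.Agent.Results.MP_5d33ca_ag.ComplexMultiplication

/-- The Mumford-Tate groups of the 1-motives over `A` have no proper algebraic subgroups over `ℚ` with
a torsor over `ℚ̄` which contains the comparison isomorphism. -/
def TorsorsAreMinimal {g : ℕ} (A : AbVarG g) : Prop :=
  ∀ (n s : ℕ) (u : Fin n → Fin g → ℂ) (v : Fin s → Fin g → ℂ) (ℓ : Fin n → Fin s → ℂ),
    IsOneMotive A u v ℓ → ∀ G : Subgroup (GL (Betti g n s) ℂ), IsAlgebraicSubgroup G →
      G ≤ mumfordTate A u v ℓ → ContainsPeriods A u v ℓ G → G = mumfordTate A u v ℓ

/-- **1-motives over abelian varieties with complex multiplication.** -/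
theorem result (ι : Type) [Fintype ι] (K : ι → Type) [∀ i, Field (K i)] [∀ i, NumberField (K i)]
    (Φ : ∀ i, Set (K i →+* ℂ)) (hΦ : ∀ i, IsCMType (Φ i))
    (L : Type) [Field L] [NumberField L] [IsGalois ℚ L] [NumberField.IsCMField L]
    (hK : ∀ i, Nonempty (K i →ₐ[ℚ] L))
    (hL : HasWeightDifferences Φ L ∨
      ((∀ σ τ : L ≃ₐ[ℚ] L, σ * τ = τ * σ) ∧ AllTypesOccur Φ L))
    (g : ℕ) (A : AbVarG g) (hA : IsCMProduct A.toAbVar Φ) : TorsorsAreMinimal A := by
  intro n s u v ℓ hM G hG hle hP
  refine le_antisymm hle (mt_le hM hG hP fun r => ?_)
  obtain ⟨D⟩ := exists_data hA hΦ
  have hc : ∀ φ : L →+* ℂ, tw φ ((NumberField.IsCMField.complexConj L).restrictScalars ℚ) =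
      NumberField.ComplexEmbedding.conjugate φ := by
    intro φ
    refine RingHom.ext fun x => ?_
    rw [NumberField.ComplexEmbedding.conjugate_coe_eq]
    exact NumberField.IsCMField.complexEmbedding_complexConj L φ x
  have hC : HasWeightDifferences Φ L := by
    rcases hL with h | ⟨h1, h2⟩
    · exact h
    · exact hasWeightDifferences_of_abelian h1 hc hΦ h2
  exact D.J_mem hΦ hc hK hC (hh_full hG hP) (hh_RC hG hP) (hh_le_MA hG hle hP) r

end Pool.Agent.Results.MP_5d33ca_ag.ComplexMultiplication
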