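import Pool.Agent.K6.H18.Cubic.Period
import Pool.Agent.K6.H18.Cubic.Finite

/-!
# Grothendieck's period conjecture: reduction to one sequence of explicit smooth cubic hypersurfaces

Let `k` be a number field with an embedding into `ℂ`.

The hypersurfaces. For polynomials `e_1, …, e_r`, `r > 0`, in `k[x_1, …, x_m]`, each of one of the
forms `x_a - x_b x_c`, `x_a - (x_b + x_c)`, `x_a - 1` (`IsElementary ∅ e`), let `V(e)`
(`Hypersurface e`) be the hypersurface
`∑ u_j e_j(x) = w (1 - w)`
in the affine space with coordinates `x_i`, `u_j`, `w`. It is smooth of dimension `m + r`, integral,
rational and of degree at most three (`IsRationalHypersurface e`), and its coefficients are `0`, `1`,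
`-1`. So it is defined over `ℤ`.

The realisations. `BM k`: Borel-Moore homology theories on the affine schemes of finite type over
`k`, with push-forward along closed immersions, pull-back along smooth morphisms, localization
sequences, homotopy invariance, and the usual compatibilities. Here
* `D.H B a b` is the algebraic de Rham Borel-Moore homology of `Spec B` in degree `a + 2b`, a vector
  space over `k`;
* `R.H B a b` is the Borel-Moore homology of the complex points of `Spec B` in degree `a + 2b` with
  rational coefficients, twisted by `ℚ(-b)`; for `Spec B` smooth of pure dimension `d` this is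
  `H^(2(d-b)-a)` with coefficients `ℚ(d-b)`;
* `V.H B a b` is the same with complex coefficients, `β : R → V` is the inclusion, and `φ : D → V` is
  the comparison isomorphism (`D ⊗_k ℂ = R ⊗ ℂ = V`);
* `G` is the group of complex points of the identity component of the motivic Galois group of the
  category of Nori motives over `k` (Tannaka dual with respect to `H_ι`), and `mot` is its action.
These are realisations of one theory with values in Nori motives; the required properties are known.

The conjecture. `PeriodConjecture β φ mot B b` says for all `a`, for the comparison isomorphism
`φ` of the motive `M` = (the homology of `Spec B` in degree `a + 2b`, twisted by `-b`): every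
polynomial relation with coefficients in `k` between the entries of the matrix of `φ`, with respect
to a `k`-basis of the de Rham realisation and a `ℚ`-basis of the Betti realisation, is also a
relation between the entries of `g ∘ φ`, for all `g` in `G`. This is Q1 for `M`: let `Z` be the
closure of the point `φ` in the space of matrices over `k`. Its dimension is the transcendence degree
of the periods, and `Z` is contained in the torsor of all `g ∘ φ`, `g` in `G_mot(M)`, whose dimension
is that of `G_mot(M)`; the dimensions are equal if and only if `Z` contains the connected component
of the torsor which contains `φ`, that is the orbit of `φ` under the identity component.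

`TX X b` is the same statement for a variety `X` over `k`. For `X` smooth of pure dimension `d` it is
Q1 for all `H^i(X)(d-b)`, `i ≥ 0`. `𝒱` is the class of varieties with an ample family of line
bundles. It contains all smooth varieties (`h𝒱`) and all quasi-projective ones, in particular the
affine ones, and every variety in `𝒱` has a torsor under a vector bundle which is affine (Jouanolou,
Thomason), which gives `hTX`.

Theorem. There is one sequence `V_1, V_2, …` of hypersurfaces `V(e)`, `e` elementary without
constants (`v N` is the system `e` of `V_N`), such that the following are equivalent: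
* `TX X b` for all smooth varieties `X` over `k` and all `b`;
* `TX X b` for all varieties `X` in `𝒱` and all `b`;
* `TX V b` for all hypersurfaces `V = V(e)`, with coefficients `0`, `1`, `-1`, and all `b`;
* `TX V_N b` for all `b` and all `N` in a given infinite set.
Moreover, for every `X` in `𝒱` and all but finitely many `N` there is a number `n` such that for all
`b` the instance of `V_N` and `b + n` implies the instance of `X` and `b`.

Scope. Let `𝒯` be the Tannakian category generated by the Borel-Moore homology of all varieties over
`k`, or equivalently by the `H^i(X)(j)` of all smooth varieties `X`; it contains all pure motives. If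
`M` is in `𝒯` then `M` is in the Tannakian category generated by one `H_j(X)` (take disjoint unions
and products with powers of `𝔾_m` and with affine spaces), and then Q1 for `H_j(X)` implies Q1 for
`M`. So Q1 for all `M` in `𝒯` is equivalent to the statements above.

In fact `𝒯` consists of all Nori motives, so that Q1 over `k` is equivalent to the statements above.
Every Nori motive is a subquotient of a sum of motives `H^n(X, Y)(j)` with `X \ Y` smooth (Nori, very
good pairs), and by resolution of singularities `X` may be taken smooth and `Y` a union of smooth
divisors `Y_1, …, Y_l` with normal crossings, without changing `X \ Y` and `H^n(X, Y)`. Let `f_i` be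
the canonical section of the line bundle `L_i` of `Y_i`, and let `W` be the smooth variety of all
`(x, t, u)`, `x` in `X`, `t_i` in the affine line, `u_i` in the fibre of `L_i` at `x`, with
`t_i u_i = f_i(x)`. For one divisor, the localization triangle of `t ≠ 0` shows that the direct image
on `X` of the constant sheaf of `W` is the sum of `ℚ` and `j_! ℚ [-1](-1)`, where `j` is the inclusion
of the complement of the divisor; by induction `H^n(X, Y)(-l)` is a direct summand of `H^(n+l)(W)`.

Relation with the starting library: `MP_fc2ced_ag.CubicHypersurfaces` treats the Schur finiteness of
motives with the hypersurfaces `T(x, y, z) = 1`, that is `∑ u_j e_j = 1`. Our decomposition is also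
used in the hand-ins CubicHypersurfaces on `MP_2a05c8_ag`, `MP_537ea0_ag`, `MP_a1cc03_ag`,
`MP_81632f_ag` and `MP_d61fbb_ag`.

Steps of the proof. (1) For every ring `B` and `e_1, …, e_r` in `B`, the scheme
`Spec B[u_1, …, u_r, w] / (∑ u_j e_j - w (1 - w))` is smooth over `Spec B` of relative dimension `r`.
If some `e_j` is invertible, it is an affine space over `Spec B`; if all `e_j` vanish, it is the
disjoint union of two affine spaces. (2) By induction on the number of nonzero `e_j`, with a diagram
chase in the localization sequences, its Borel-Moore homology is the direct sum of that of `Spec B`,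
by pull-back, and that of `Spec B/(e_1, …, e_r)`, by pull-back to affine space and push-forward,
naturally in the theory. (3) Every algebra of finite type over `k` is
`k[x_1, …, x_m]/(e_1, …, e_r)` with `e_j` as above or `x_a - s`, `s` in `k`. (4) If every relation
`x_a - s` is replaced by the minimal polynomial of `s` over `ℚ`, the algebra becomes a direct factor
of the new one, which has a presentation without constants; the homology of a direct factor is a
direct summand. (5) `V_N` belongs to the disjoint union of the first `N` hypersurfaces of an
enumeration of all `V(e)`. (6) If a motive `M` is a direct summand of `M'`, with maps `i`, `p`, then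
`f ↦ f(p ∘ - ∘ i)` maps the polynomial functions of the entries for `M` to those for `M'`.
-/

set_option autoImplicit false

open AlgebraicGeometry CategoryTheory MvPolynomial

namespace Pool.Agent.Results.MP_5d33ca_ag.CubicHypersurfaces

open Pool.Agent.K6.H18.Cubic Pool.Agent.K6.H18.Cubic.Alg

/-- The hypersurface number `N` of the sequence as a scheme over `k`. -/
noncomputable def member {k : Type} [CommRing k] (v : ℕ → EqnSystem k) (N : ℕ) :
    Over (Spec (CommRingCat.of k)) :=
  specOf (Hypersurface (v N).eqs)

/-- The conjecture `TX` for all `X` in `𝒱` is reduced to the sequence `v`. -/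
structure IsReduced {k : Type} [CommRing k] (v : ℕ → EqnSystem k)
    (𝒱 : Over (Spec (CommRingCat.of k)) → Prop) (TX : Over (Spec (CommRingCat.of k)) → ℤ → Prop) :
    Prop where
  tfae : ∀ I : Set ℕ, I.Infinite → List.TFAE [
    ∀ X, IsSmoothVariety X → ∀ b, TX X b,
    ∀ X, 𝒱 X → ∀ b, TX X b,
    ∀ (m r : ℕ) (e : Fin r → MvPolynomial (Fin m) k), IsElementary ∅ e →
      ∀ b, TX (specOf (Hypersurface e)) b,
    ∀ N ∈ I, ∀ b, TX (member v N) b]
  instances : ∀ X, 𝒱 X → ∃ N₀ : ℕ, ∀ N ≥ N₀, ∃ n : ℕ, ∀ b, TX (member v N) (b + n) → TX X b

/-- Grothendieck's period conjecture for the cohomology of all smooth varieties over a number field is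
equivalent to the one for infinitely many members of one sequence of explicit smooth rational cubic
hypersurfaces with coefficients `0`, `1`, `-1`. -/
theorem result {k : Type} [Field k] [NumberField k] :
    (∀ (m r : ℕ) (e : Fin r → MvPolynomial (Fin m) k), IsElementary ∅ e →
      IsRationalHypersurface e) ∧
    ∃ v : ℕ → EqnSystem k, (∀ N, IsElementary ∅ (v N).eqs) ∧
      ∀ [Algebra k ℂ] (D R : BM k) (V : LinearBM k ℂ) (β : R.Hom V.toBM) (φ : D.Hom V.toBM)
        (G : Type) (mot : G → V.End) (𝒱 : Over (Spec (CommRingCat.of k)) → Prop)
        (TX : Over (Spec (CommRingCat.of k)) → ℤ → Prop), (∀ X, IsSmoothVariety X → 𝒱 X) →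
        IsExtensionOf (PeriodConjecture β φ mot) 𝒱 TX → IsReduced v 𝒱 TX := by
  have hsep := isSeparable_of_numberField k ∅
  obtain ⟨v, hv, -, h⟩ := exists_sequence_inherited (k := k) (S := ∅) Set.countable_empty
  refine ⟨fun _ _ e he => isRationalHypersurface e he, v, hv,
    fun D R V β φ G mot 𝒱 TX h𝒱 hTX => ?_⟩
  obtain ⟨h1, h2⟩ := h _ (inherited_periodConjecture β φ mot) 𝒱 TX hTX
  refine ⟨fun I hI => ?_, h2⟩
  have h3 := h1 I hI
  have h01 := h3.out 0 1
  have h12 := h3.out 1 2
  have h13 := h3.out 1 3
  tfae_have 1 ↔ 2 :=
    ⟨fun h1 => h01.1 fun X _ hX => h1 X hX, fun h1 X hX => h01.2 h1 X (h𝒱 X hX) hX⟩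
  tfae_have 2 ↔ 3 := h12
  tfae_have 2 ↔ 4 := h13
  tfae_finish

end Pool.Agent.Results.MP_5d33ca_ag.CubicHypersurfaces
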