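import Pool.Agent.K6.H85.SC.Dom

set_option autoImplicit false

/-!
# 1-motives over abelian varieties whose Mumford-Tate domain is a disc, a ball of odd dimension, a
# domain of type IV, or a product of discs

Let `M = [ℤ^n → G_Q]` be a 1-motive over the field `ℚ̄` of algebraic numbers, where `G_Q` is an extension
of an abelian variety `A` by `G_m^s`. It is given by vectors `u_i`, `v_l` of the tangent space of `A`
(the points of `A` and of the dual abelian variety) and numbers `ℓ_il` (`IsOneMotive`; see the starting
file `UnitaryOneMotives`, whose definitions are used here, for the explanations). Its periods are `2 π i`,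
the periods and quasi-periods of `A`, and the integrals of the first, second and third kind between the
points. Its motivic Galois group is the Mumford-Tate group `MT(M)` (Brylinski, André). The period
conjecture says that the comparison isomorphism is a generic point over `ℚ̄` of its torsor under `MT(M)`;
in particular it predicts that `MT(M)` is contained in every algebraic group `G ⊆ GL(H_B(M))` over `ℚ`
with a torsor over `ℚ̄` which contains the comparison isomorphism (in the terminology of André:
`Ω^And = Ω^dRB`, for `M` and for all the motives generated by `M`).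

**Theorem.** Let `A` be a direct factor up to isogeny of an abelian variety `C` over `ℚ̄` (for example
`C = A`), and let `W` be a direct summand of the `𝔤`-module `H_1(C, ℂ)`, where `𝔤` is the Lie algebra of
the Hodge group of `C`. Assume that `W` is of one of the following three kinds (`GoodPart`):

* (`MiddlePart`) `𝔤` acts on `W` through scalars and the sum of `k` Lie algebras `sl(2m)`, and `W` is a
  multiple of the tensor product of the `k` middle exterior powers `⋀^m(ℂ^{2m})`;
* (`SpinPart`) `𝔤` acts on `W` through scalars and a sum of orthogonal Lie algebras `so(r)`, `r ≥ 6`, and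
  `W` is a multiple of the tensor product of their spin representations;
* (`ProductPart`) `𝔤` acts on `W` through a sum of `k` Lie algebras `sl(2)` and a centre, `W` is a sum of
  tensor products of standard representations of different `sl(2)` and of characters of the
  centre, and the position is separated: for two different factors `sl(2)` there is either an
  irreducible summand of `W` on which both act nontrivially, or two irreducible summands `V ⊗ V'`,
  `V ⊗ V''` with `V'` and `V''` the standard representations of the two factors.

Assume that the part of the Hodge group of `C` which acts trivially on `W` acts trivially on the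
Mumford-Tate domain of `A` (`DomainOf`). Then for **every** 1-motive `M` over `A` (no condition on the
points) and every `G` as above:

1. `G` contains the derived group of `MT(M)`: it contains `exp (t Z)` for all complex numbers `t` and all
   `Z` in the derived algebra of the Lie algebra of `MT(M)`. (This derived group contains the unipotent
   radical.)
2. If the centre of `𝔤` is rigid (`RigidCentre`) or if `C` has no factor of type IV, then `G` contains
   `MT(M)`.

The summand `W` need not be defined over `ℚ` or over the real numbers, and nothing is assumed about the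
complement of `W`.

## Examples (explanations, not part of the statement)

* **All abelian varieties `A` whose Mumford-Tate domain is a disc**, that is, all fibres over `ℚ̄` of
  families of abelian varieties over Shimura curves and modular curves, if the fibre is Hodge generic:
  elliptic curves, abelian surfaces with quaternionic multiplication, the families of Shimura over the
  curves given by a quaternion algebra over a totally real field `F` which splits at one real place only
  (the strange models of Deligne included, where the centre is not trivial), the fourfolds of Mumford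
  and their generalizations. Here `C = A`, and `W` is any irreducible summand on which the noncompact
  factor `sl(2, ℝ)` acts nontrivially. So every `G` contains the derived group of `MT(M)` for all
  1-motives over such `A`, and `MT(M)` if there are no factors of type IV.
* Products of discs: abelian varieties with real multiplication by a totally real field of degree
  `dim A` (Hilbert-Blumenthal) or with totally indefinite quaternionic multiplication over a totally
  real field of degree `dim A / 2`; their products with each other and with elliptic curves (with or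
  without complex multiplication), and all abelian varieties on whose domain only the factors `sl(2)`
  of such a part `W` act; also parts `W` which contain the summands `V_i ⊗ V'` for all noncompact
  factors `i` and one compact `V'`. (Not all abelian varieties of type `A_1` are covered: for example
  if the noncompact `V_i` occur only in `V_i ⊗ V'_i` with different compact `V'_i`.)
* The abelian varieties whose domain is an irreducible domain of type IV and dimension at least four:
  all abelian varieties dominated by Kuga-Satake varieties of K3 surfaces, hyperkähler varieties and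
  cubic fourfolds (with real multiplication, of rank at least six over the field), and their twists, the
  abelian fourfolds of Weil type with Hodge group `SU(2, 2)`, and the spin types of orthogonal Shimura
  varieties of type `D^ℝ` and `B`. For example 1-motives over a factor of a Kuga-Satake variety.
* The abelian varieties whose domain is a complex ball of odd dimension `2m - 1`. If `H_1(A)` contains
  no middle exterior power, one takes `C = A × A''` with an auxiliary `A''` with the same adjoint group.

The starting files for this problem have the cases that `C` has a unitary part given by the centre of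
`End(C)` (`UnitaryOneMotives`) and that the Lie algebra of the Hodge group is determined by its commutant
(`OneMotivesMumfordTate`: sums of planes, Kuga-Satake varieties themselves). The pure motives generated by
`A` over such domains are in the starting files `MP_77d3f5_ag.BallMotives` and
`MP_cbf1af_ag.SpinDomainMotives`. New here: the 1-motives over all these abelian varieties, and parts of
type `A_1` which are not isotypic (products of discs).

Nothing is assumed about periods: `AbVar` and `AbVarG` are descriptions of abelian varieties over `ℚ̄` by
theta functions (`Pool/Agent/Y102/AVDefs.lean`), and the transcendence theorems which are used are proved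
in this repository. The group `G` is not assumed to be reductive.

## Proof

Let `𝔥` be the image of the Lie algebra of `G` in the endomorphisms of `H_1(A, ℚ)`, and `𝔮` the Lie algebra
of the elements of `𝔤` whose restriction to `H_1(A, ℚ)` is in `𝔥`. It acts semisimply on `H_1(C, ℚ)` with the
commutant `End(C) ⊗ ℚ`. The derived algebras of `𝔮` and `𝔤` have the same image in the endomorphisms of
`W` (`GPart`; for the third kind this is `gPart_A1`, from the lemmas of Goursat and Ribet in
`Pool.Agent.Y102.TA`). By the argument on real Lie algebras (`N113.BT.mem_of_sup`) the complex structure of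
`H_1(A, ℝ)` is the restriction of an element of `(𝔷 + [𝔮, 𝔮]) ⊗ ℝ`, `𝔷` the centre of `𝔤` (`ZZ_JG`). The rest
is the method of `UnitaryOneMotives` (`main_twoG`, `main_threeG`).
-/

open Module Matrix Pool.Agent.Y102 Pool.Agent.R917.OM Pool.Agent.N208.OneM

noncomputable section

namespace Pool.Agent.Results.MP_5d33ca_ag.OneMotivesRigidParts

section Parts

variable {g : ℕ} (C : AbVar g)

/-- The algebra of the endomorphisms of `H_1(C, ℂ)`, as matrices for the basis of the lattice. -/
abbrev EndC (_ : AbVar g) : Type := Matrix (Fin (2 * g)) (Fin (2 * g)) ℂ

/-- The complex Lie algebra `𝔤 ⊗ ℂ`, acting on `H_1(C, ℂ)`, where `𝔤` is the Lie algebra of the Hodge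
group of `C` (`InLie`: the endomorphisms of `H_1(C, ℚ)` which annihilate all classes that are Hodge
classes and de Rham-Betti classes). -/
def lieC : Submodule ℂ (EndC C) :=
  Submodule.span ℂ {Y | ∃ X, InLie C X ∧ Y = Pool.Agent.N208.OneM.toC C X}

/-! ### The first kind: middle exterior powers -/

section Mid

variable {N k n : ℕ}

/-- The canonical anticommutation relations for the creation operators `a σ i` and the annihilation
operators `b σ i`, where `σ` is the colour. -/
def Car (a b : Fin k → Fin n → Matrix (Fin N) (Fin N) ℂ) : Prop :=
  (∀ σ i τ j, a σ i * a τ j = -(a τ j * a σ i)) ∧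
  (∀ σ i τ j, b σ i * b τ j = -(b τ j * b σ i)) ∧
  ∀ σ i τ j, a σ i * b τ j + b τ j * a σ i = if σ = τ ∧ i = j then 1 else 0

/-- The action of the matrix `x` on the exterior algebra of the colour `σ`, in terms of creation and
annihilation operators. -/
def quant (a b : Fin k → Fin n → Matrix (Fin N) (Fin N) ℂ) (σ : Fin k)
    (x : Matrix (Fin n) (Fin n) ℂ) : Matrix (Fin N) (Fin N) ℂ :=
  ∑ i, ∑ j, x i j • (a σ i * b σ j)

end Mid

/-- **A middle exterior part** of `H_1(C, ℂ)`, with `k` colours: the projector `P * Q` commutes with
`𝔤`; the map `Q` identifies its image `W` with the space of the vectors with `m` particles of each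
colour (the number operator of the colour `σ` is `quant a b σ 1`), for some operators `a`, `b` which
satisfy the canonical anticommutation relations with `2 m` modes of each colour, and `P` is the inverse
of `Q` on this space. The Lie algebra `𝔤` acts on `W` by elements of the sum of the `k` Lie algebras
`sl(2m)` and scalars, and the associative algebra generated by `𝔤 ⊗ ℂ` contains elements which act on
`W` like `a σ i * b σ j`. -/
structure MiddlePart {N k m : ℕ} (a b : Fin k → Fin (2 * m) → Matrix (Fin N) (Fin N) ℂ)
    (P : Matrix (Fin (2 * g)) (Fin N) ℂ) (Q : Matrix (Fin N) (Fin (2 * g)) ℂ) : Prop where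
  /-- the canonical anticommutation relations -/
  car : Car a b
  /-- `P * Q` and `Q * P` are projectors -/
  left : P * Q * P = P
  right : Q * P * Q = Q
  /-- the image of `Q` is the space of the vectors with `m` particles of each colour -/
  middle : ∀ v, (∃ u, v = Q.mulVec u) ↔ ∀ σ, (quant a b σ 1).mulVec v = (m : ℂ) • v
  /-- the image of `P * Q` and its complement are stable under `𝔤` -/
  stable : ∀ X, InLie C X →
    P * Q * Pool.Agent.N208.OneM.toC C X = Pool.Agent.N208.OneM.toC C X * (P * Q)
  /-- `𝔤` acts through the sum of the Lie algebras `sl(2m)` and the scalars -/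
  acts : ∀ X, InLie C X → ∃ c : ℂ, P * Q * Pool.Agent.N208.OneM.toC C X + c • (P * Q) ∈
    Submodule.span ℂ {Y | ∃ σ x, Matrix.trace x = 0 ∧ Y = P * quant a b σ x * Q}
  /-- the associative algebra generated by `𝔤 ⊗ ℂ` -/
  generates : ∀ σ i j, ∃ Y ∈ Algebra.adjoin ℂ (lieC C : Set (EndC C)),
    P * (a σ i * b σ j) * Q = P * Q * Y

/-! ### The second kind: spin representations -/

/-- **A spin part** `W` of `H_1(C, ℂ)`, with `k` colours: `P` is the inclusion of `W`, a space of
dimension `d`, and `Q` is a projection to `W`; the projector `P * Q` commutes with `𝔤`. The `E i` are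
anticommuting endomorphisms of `W` with square `1`; the generator `E i` has the colour `c i`, and
every colour which occurs occurs at least six times. The Lie algebra `𝔤` acts on `W` by combinations of
products of two different generators of the same colour and scalars, and the associative algebra
generated by `𝔤 ⊗ ℂ` contains elements which act on `W` like these products. -/
structure SpinPart {N k d : ℕ} (E : Fin N → Matrix (Fin d) (Fin d) ℂ) (c : Fin N → Fin k)
    (P : Matrix (Fin (2 * g)) (Fin d) ℂ) (Q : Matrix (Fin d) (Fin (2 * g)) ℂ) : Prop where
  /-- the relations of the Clifford algebra -/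
  square : ∀ i, E i * E i = 1
  anti : ∀ i j, i ≠ j → E i * E j = -(E j * E i)
  /-- every colour which occurs occurs at least six times -/
  six : ∀ i, 6 ≤ (Finset.univ.filter fun j => c j = c i).card
  /-- `Q` is a projection to the summand -/
  proj : Q * P = 1
  /-- the image of `P * Q` and its complement are stable under `𝔤` -/
  stable : ∀ X, InLie C X →
    P * Q * Pool.Agent.N208.OneM.toC C X = Pool.Agent.N208.OneM.toC C X * (P * Q)
  /-- `𝔤` acts through the sum of the orthogonal Lie algebras and the scalars -/
  acts : ∀ X, InLie C X →
    ∃ t : ℂ, Q * Pool.Agent.N208.OneM.toC C X * P + t • (1 : Matrix (Fin d) (Fin d) ℂ) ∈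
      Submodule.span ℂ {Y | ∃ i j, i ≠ j ∧ c i = c j ∧ Y = E i * E j}
  /-- the associative algebra generated by `𝔤 ⊗ ℂ` -/
  generates : ∀ i j, i ≠ j → c i = c j → ∃ Y ∈ Algebra.adjoin ℂ (lieC C : Set (EndC C)),
    E i * E j = Q * Y * P

/-! ### The third kind: type `A_1` in separated position -/

/-- The Lie algebra of the actions of the elements of `𝔤 ⊗ ℂ` on the summand `W` with the inclusion
`P` and the projection `Q`. -/
def actC {d : ℕ} (P : Matrix (Fin (2 * g)) (Fin d) ℂ) (Q : Matrix (Fin d) (Fin (2 * g)) ℂ) :
    Submodule ℂ (Matrix (Fin d) (Fin d) ℂ) :=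
  Submodule.span ℂ {Y | ∃ X, InLie C X ∧ Y = Q * Pool.Agent.N208.OneM.toC C X * P}

/-- The endomorphism `z` of `W` commutes with `𝔤`. -/
def IsCentral {d : ℕ} (P : Matrix (Fin (2 * g)) (Fin d) ℂ) (Q : Matrix (Fin d) (Fin (2 * g)) ℂ)
    (z : Matrix (Fin d) (Fin d) ℂ) : Prop := ∀ Y ∈ actC C P Q, z * Y = Y * z

/-- **A part of type `A_1`** of `H_1(C, ℂ)`: `P` is the inclusion of the summand `W`, a space of
dimension `d`, and `Q` is a projection to `W`; the projector `P * Q` commutes with `𝔤`. There are `k`
commuting nonzero (not necessarily unital) representations `φ i` of the algebra of the matrices of size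
two on `W` (so `φ i 1` is a projector, and `W` is a sum of tensor products of standard representations),
the actions of the elements of `𝔤 ⊗ ℂ` on `W` contain the `φ i x`, `trace x = 0`, and every such action is
a sum of a central element and of elements `φ i (x i)`, `trace (x i) = 0`. The position is separated: for
`i ≠ j` the projectors `φ i 1` and `φ j 1` have a nonzero product, or there is a nonzero `N` with
`φ i 1 * N = N = N * φ j 1` which commutes with the other `φ l` and with the centre. -/
structure ProductPart {k d : ℕ}
    (φ : Fin k → Matrix (Fin 2) (Fin 2) ℂ →ₗ[ℂ] Matrix (Fin d) (Fin d) ℂ)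
    (P : Matrix (Fin (2 * g)) (Fin d) ℂ) (Q : Matrix (Fin d) (Fin (2 * g)) ℂ) : Prop where
  /-- `Q` is a projection to the summand -/
  proj : Q * P = 1
  /-- the image of `P * Q` and its complement are stable under `𝔤` -/
  stable : ∀ X, InLie C X →
    P * Q * Pool.Agent.N208.OneM.toC C X = Pool.Agent.N208.OneM.toC C X * (P * Q)
  /-- the `φ i` are commuting nonzero representations of the algebra of matrices -/
  mul : ∀ i x y, φ i (x * y) = φ i x * φ i y
  comm : ∀ i j, i ≠ j → ∀ x y, φ i x * φ j y = φ j y * φ i x
  nonzero : ∀ i, φ i 1 ≠ 0
  /-- the Lie algebras `sl(2)` are contained in the action of `𝔤 ⊗ ℂ` -/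
  contains : ∀ i x, Matrix.trace x = 0 → φ i x ∈ actC C P Q
  /-- the action of `𝔤` is given by the Lie algebras `sl(2)` and a centre -/
  acts : ∀ X, InLie C X → ∃ x : Fin k → Matrix (Fin 2) (Fin 2) ℂ, (∀ i, (x i).trace = 0) ∧
    IsCentral C P Q (Q * Pool.Agent.N208.OneM.toC C X * P - ∑ i, φ i (x i))
  /-- the position is separated -/
  separated : ∀ i j, i ≠ j → φ i 1 * φ j 1 ≠ 0 ∨
    ∃ N : Matrix (Fin d) (Fin d) ℂ, N ≠ 0 ∧ φ i 1 * N = N ∧ N * φ j 1 = N ∧
      (∀ l, l ≠ i → l ≠ j → ∀ x, N * φ l x = φ l x * N) ∧
      ∀ z ∈ actC C P Q, IsCentral C P Q z → N * z = z * N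

/-- `E` is the projector to a summand `W` of `H_1(C, ℂ)` of one of the three kinds. -/
inductive GoodPart : EndC C → Prop
  | middle {N k m : ℕ} (a b : Fin k → Fin (2 * m) → Matrix (Fin N) (Fin N) ℂ)
      (P : Matrix (Fin (2 * g)) (Fin N) ℂ) (Q : Matrix (Fin N) (Fin (2 * g)) ℂ) :
      MiddlePart C a b P Q → GoodPart (P * Q)
  | spin {N k d : ℕ} (E : Fin N → Matrix (Fin d) (Fin d) ℂ) (c : Fin N → Fin k)
      (P : Matrix (Fin (2 * g)) (Fin d) ℂ) (Q : Matrix (Fin d) (Fin (2 * g)) ℂ) :
      SpinPart C E c P Q → GoodPart (P * Q)
  | product {k d : ℕ} (φ : Fin k → Matrix (Fin 2) (Fin 2) ℂ →ₗ[ℂ] Matrix (Fin d) (Fin d) ℂ)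
      (P : Matrix (Fin (2 * g)) (Fin d) ℂ) (Q : Matrix (Fin d) (Fin (2 * g)) ℂ) :
      ProductPart C φ P Q → GoodPart (P * Q)

/-- There is no factor of type IV: the centre of the algebra of the endomorphisms contains no nonzero
element which is skew-symmetric for the polarization. -/
def NoFactorOfTypeIV : Prop :=
  ∀ z : EndQ C, IsEndo C z → (∀ X, IsEndo C X → Cm C z X) →
    (∀ u v, form C (z u) v + form C u (z v) = 0) → z = 0

/-! ### The domain -/

/-- The matrix of the multiplication by `i` on `H_1(C, ℝ) = ℂ ^ g`, for the basis of the lattice. -/
def complexStructure : EndC C :=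
  Matrix.of fun l j => ((C.lam.repr (Complex.I • C.lam j) l : ℝ) : ℂ)

end Parts

/-- The part of the Hodge group of `C` which acts trivially on the image `W` of the projector `E` acts
trivially on the Mumford-Tate domain of the factor `A`: if an element `∑ c_j X_j` of `[𝔤, 𝔤] ⊗ ℂ` acts
trivially on `W`, then its restriction to `H_1(A, ℂ)` commutes with the complex structure of `A`. -/
def DomainOf {g g' : ℕ} (A : AbVar g) (C : AbVar g') (f : A.H1 →ₗ[ℚ] C.H1) (p : C.H1 →ₗ[ℚ] A.H1)
    (E : EndC C) : Prop :=
  ∀ (k : ℕ) (c : Fin k → ℂ) (X : Fin k → EndQ C), (∀ j, X j ∈ derivedLie C) →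
    E * ∑ j, c j • Pool.Agent.N208.OneM.toC C (X j) = 0 →
      (∑ j, c j • Pool.Agent.N208.OneM.toC A (restr A C f p (X j))) * complexStructure A =
        complexStructure A * ∑ j, c j • Pool.Agent.N208.OneM.toC A (restr A C f p (X j))

theorem GoodPart.toGPart {g : ℕ} {C : AbVar g} {E : EndC C} (h : GoodPart C E) :
    Pool.Agent.K6.H85.SC.GPart C (matE (2 * g) E) := by
  cases h with
  | middle a b P Q h =>
    exact (Pool.Agent.N113.BT.rigPart_of (A := C) h.car.1 h.car.2.1 h.car.2.2 h.left h.right
      h.middle h.stable h.acts h.generates).toGPart
  | spin E c P Q h =>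
    exact (Pool.Agent.N113.BT.rigPart_spin (A := C) h.square h.anti h.six h.proj h.stable h.acts
      h.generates).toGPart
  | product φ P Q h =>
    have hmap : (cx C.NA).map (Pool.Agent.K6.H85.SC.ka P Q) = actC C P Q := by
      unfold actC cx Pool.Agent.W516.DR.extEnd
      rw [Submodule.map_span]
      congr 1
      ext Y
      constructor
      · rintro ⟨_, ⟨X, hX, rfl⟩, rfl⟩
        exact ⟨X, hX, Pool.Agent.K6.H85.SC.ka_bc X⟩
      · rintro ⟨X, hX, rfl⟩
        exact ⟨_, ⟨X, hX, rfl⟩, Pool.Agent.K6.H85.SC.ka_bc X⟩
    refine Pool.Agent.K6.H85.SC.gPart_A1 (φ := φ) h.proj h.stable ?_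
    rw [hmap]
    refine ⟨h.mul, h.comm, h.nonzero, fun i x hx => h.contains i x hx, fun X hX => ?_, h.separated⟩
    unfold actC at hX
    induction hX using Submodule.span_induction with
    | mem X hX =>
      obtain ⟨X, hX, rfl⟩ := hX
      obtain ⟨x, h1, h2⟩ := h.acts X hX
      exact ⟨x, h1, h2⟩
    | zero => exact ⟨0, TA.Dec.zero⟩
    | add a b _ _ ha hb =>
      obtain ⟨x, hx⟩ := ha
      obtain ⟨y, hy⟩ := hb
      exact ⟨x + y, hx.add hy⟩
    | smul c a _ ha =>
      obtain ⟨x, hx⟩ := ha
      exact ⟨c • x, hx.smul c⟩

/-- **Theorem.** Let `M` be any 1-motive over `ℚ̄` whose abelian part `A` is a direct factor of an abelian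
variety `C`, let `E` be the projector to a good part of `H_1(C, ℂ)` such that the part of the Hodge group
of `C` which acts trivially on it acts trivially on the Mumford-Tate domain of `A`, and let `G` be an
algebraic group over `ℚ` with a torsor over `ℚ̄` which contains the comparison isomorphism of `M`.

1. `G` contains `exp (t Z)` for all complex numbers `t` and all `Z` in the derived algebra of the Lie
   algebra of the Mumford-Tate group of `M`.
2. If the centre of the Lie algebra of the Hodge group of `C` is rigid, or if `C` has no factor of type
   IV, then the Mumford-Tate group of `M` is contained in `G`. -/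
theorem result (g n s : ℕ) (A : AbVarG g) (u : Fin n → Fin g → ℂ) (v : Fin s → Fin g → ℂ)
    (ℓ : Fin n → Fin s → ℂ) (hM : IsOneMotive A u v ℓ)
    (g' : ℕ) (C : AbVar g') (f : A.toAbVar.H1 →ₗ[ℚ] C.H1) (p : C.H1 →ₗ[ℚ] A.toAbVar.H1)
    (hF : IsFactor A.toAbVar C f p) (E : EndC C) (hE : GoodPart C E)
    (hD : DomainOf A.toAbVar C f p E)
    (G : Subgroup (GL (Betti g n s) ℂ)) (hG : IsAlgebraicSubgroup G)
    (hP : ContainsPeriods A u v ℓ G) :
    (∀ Z ∈ derived (mtLie A u v ℓ), ∀ t : ℂ, IsIn G (NormedSpace.exp (t • cplx Z))) ∧
      (RigidCentre C ∨ NoFactorOfTypeIV C → mumfordTate A u v ℓ ≤ G) := by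
  have hD' : Pool.Agent.K6.H85.SC.Dm (A := A.toAbVar) p (matE (2 * g') E) := by
    refine Pool.Agent.K6.H85.SC.dm_of (hfac hF) fun k c X hX h0 => hD k c X (fun j => ?_) h0
    refine (Submodule.span_mono ?_) (hX j)
    rintro _ ⟨X, hX, Y, hY, rfl⟩
    exact ⟨X, hX, Y, hY, rfl⟩
  refine ⟨fun Z hZ t => Pool.Agent.K6.H85.SC.main_twoG hM hG hP hF hE.toGPart hD' hZ t,
    fun h => Pool.Agent.K6.H85.SC.main_threeG hM hG hP hF hE.toGPart hD' ?_⟩
  rcases h with h | h
  · exact h.toRigid C
  · exact Pool.Agent.K6.H85.SC.rigid_of_NT4 fun P h1 h2 h3 =>
      h P (C.mem_EA.1 h1) (fun X hX => h2 X (C.mem_EA.2 hX)) h3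

end Pool.Agent.Results.MP_5d33ca_ag.OneMotivesRigidParts
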