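import Pool.Agent.K6.H85.SM.Main
import Pool.Agent.Results.MP_5d33ca_ag.OneMotivesRigidParts

set_option autoImplicit false

/-!
# 1-motives over abelian varieties whose Mumford-Tate domain is a product of domains

Let `M = [ℤ^n → G_Q]` be a 1-motive over the field `ℚ̄` of algebraic numbers, where `G_Q` is an extension
of an abelian variety `A` by `G_m^s` (`IsOneMotive`, as in the starting file `UnitaryOneMotives`). The
period conjecture predicts that the Mumford-Tate group `MT(M)`, which is the motivic Galois group of `M`
(Brylinski, André), is contained in every algebraic group `G ⊆ GL(H_B(M))` over `ℚ` with a torsor over `ℚ̄`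
which contains the comparison isomorphism (`Ω^And = Ω^dRB` in the terminology of André). We proved this
in `OneMotivesRigidParts` if one good part of the homology controls the Mumford-Tate domain of `A`. Here
we use several good parts, with no common factor.

**Theorem.** Let `A` be a direct factor up to isogeny of an abelian variety `C` over `ℚ̄` (for example
`C = A`), let `𝔤` be the Lie algebra of the Hodge group of `C`, and let `I_1, …, I_k` be the simple ideals of
`[𝔤, 𝔤] ⊗ ℂ` (`SimpleIdeals`). Assume that

* every simple ideal acts nontrivially on some good part `W` of `H_1(C, ℂ)`: a direct summand which is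
  a multiple of a tensor product of middle exterior powers of standard representations of Lie algebras
  `sl(2m)`, or a multiple of a tensor product of spin representations of Lie algebras `so(r)`, `r ≥ 6`,
  or of type `A_1` in separated position (`GoodPart`, see `OneMotivesRigidParts`);
* there are no identifications (`IsIdentification`): equality is the only equivalence relation on the
  set of the simple ideals which is stable under the automorphisms of the field `ℂ` and such that two
  equivalent simple ideals have the same dimension, are both compact or both noncompact (`IsCompact`:
  the ideal commutes with the complex structure), and do not both act nontrivially on one good part,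
  if they are different.

Then for **every** 1-motive `M` over `A` (no condition on the points) and every `G` as above:

1. `G` contains the derived group of `MT(M)`: it contains `exp (t Z)` for all complex numbers `t` and all
   `Z` in the derived algebra of the Lie algebra of `MT(M)`. (This derived group contains the unipotent
   radical.)
2. If the centre of `𝔤` is rigid (`RigidCentre`) or if `C` has no factor of type IV, then `G` contains
   `MT(M)`.

## Examples (explanations, not part of the statement)

The simple ideals of a simple factor `Res_{F/ℚ} H` of the adjoint group of the Mumford-Tate group, with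
`H` absolutely simple over the totally real field `F`, correspond to the embeddings of `F`, and the
stable equivalence relations on them correspond to the subfields of `F`.

* **Type `A_1`.** If all simple ideals are isomorphic to `sl(2)` then every irreducible summand of
  `H_1(C, ℂ)` is a good part, and the first condition holds. The second condition holds, for example, if
  the field `F` of the adjoint group has no subfields except for `ℚ` and `F` (for example if its degree is
  a prime number) and there is at least one compact and one noncompact place: the Mumford-Tate
  domain is a product of any number of discs. (If all places are noncompact then `C` is of the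
  Hilbert-Blumenthal or quaternionic type, which is in `OneMotivesRigidParts`.)
* **Products of discs.** Products of abelian varieties `A_1, …, A_r` whose Mumford-Tate domains are discs,
  with pairwise not isomorphic fields `F_1, …, F_r`: elliptic curves or abelian surfaces with quaternionic
  multiplication (`F = ℚ`), the fourfolds of Mumford (`[F : ℚ] = 3`) and all others. An identification
  would be a bijection of the embeddings of `F_a` with those of `F_b`, since the noncompact place is
  alone in its class.
* **Products of different types.** Products of Kuga-Satake varieties of K3 surfaces, hyperkähler varieties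
  and cubic fourfolds, with field of endomorphisms `ℚ`, whose transcendental lattices have pairwise
  different ranks between `6` and `90`, with each other, with the varieties in the previous items, and
  with the abelian varieties of middle exterior type `⋀^m(ℂ^{2m})` for pairwise different `m ≥ 3`
  (the dimensions of the simple ideals are different); and all factors `A` of these products.
* Products of Kuga-Satake varieties of K3 surfaces with real multiplication by pairwise not isomorphic
  fields `F_a`, of rank at least six over `F_a`; abelian varieties of spin type or of middle exterior type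
  over a totally real field `F` without proper subfields, with any number of noncompact places and at
  least one compact place; and all their factors.

`OneMotivesRigidParts` is the case of one good part `W` (where nothing is assumed about the ideals which act
trivially on `W` and on the domain); in most of these examples no single good part controls the domain.
Without the second condition the statement on full subalgebras in the proof below is not true: if, for
instance, `A_1` is a fourfold of Mumford and `A_2` is in a family of Shimura with the same quaternion
algebra over `F`, then the sum of the centre and the diagonal subalgebra has the same commutant.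

Nothing is assumed about periods: `AbVar` and `AbVarG` are descriptions of abelian varieties over `ℚ̄` by
theta functions (`Pool/Agent/Y102/AVDefs.lean`), and the transcendence theorems which are used are proved
in this repository.

## Proof

As in `OneMotivesRigidParts`, it is enough to show that every full subalgebra `𝔮` of `𝔤` over `ℚ` (a
subalgebra which acts semisimply, with the commutant `End(C) ⊗ ℚ`) contains `[𝔤, 𝔤]`. Put
`D = [𝔮, 𝔮] ⊗ ℂ`. Since `D` and `[𝔤, 𝔤] ⊗ ℂ` have the same image in the endomorphisms of a good part, `D`
projects onto every simple ideal. Call `I_i` and `I_j` equivalent if the same elements of `D` commute with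
`I_i` and with `I_j` (`rel`). This is an equivalence relation, stable under the automorphisms of `ℂ`, since
`𝔮` is defined over `ℚ` (`rel_gal`); equivalent ideals are quotients of `D` by the same ideal and have the
same dimension (`finrank_eq`); they do not both act nontrivially on a good part (`not_rel_of_part`). If
`I_j` is compact and `I_i` is not, then there is a real element of `I_i` which is symmetric for the
polarization; its square in the adjoint representation has a positive eigenvalue on `I_i`; a real
lift to `D` acts on `I_j` by a skew-symmetric operator with the same eigenvalue, a contradiction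
(`compact_of_rel`). So the relation is the equality, and then `D` is everything by the Chinese remainder
theorem for ideals with simple quotients (`all`).
-/

open Module Matrix Pool.Agent.Y102 Pool.Agent.R917.OM Pool.Agent.N208.OneM

noncomputable section

namespace Pool.Agent.Results.MP_5d33ca_ag.OneMotivesManyParts

open Pool.Agent.Results.MP_5d33ca_ag.OneMotivesRigidParts

section Parts

variable {g : ℕ} (C : AbVar g)

/-- The complex Lie algebra `[𝔤, 𝔤] ⊗ ℂ`, acting on `H_1(C, ℂ)`, where `𝔤` is the Lie algebra of the Hodge
group of `C`. -/
def derivedC : Submodule ℂ (EndC C) :=
  Submodule.span ℂ {Y | ∃ X ∈ derivedLie C, Y = Pool.Agent.N208.OneM.toC C X}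

/-- `I` is the list of the simple ideals of `[𝔤, 𝔤] ⊗ ℂ`. -/
structure SimpleIdeals {k : ℕ} (I : Fin k → Submodule ℂ (EndC C)) : Prop where
  /-- the ideals are contained in `[𝔤, 𝔤] ⊗ ℂ` -/
  le : ∀ i, I i ≤ derivedC C
  /-- their sum is `[𝔤, 𝔤] ⊗ ℂ` -/
  sum : ∀ x ∈ derivedC C, ∃ c : Fin k → EndC C, (∀ i, c i ∈ I i) ∧ x = ∑ i, c i
  /-- different ideals commute -/
  commute : ∀ i j, i ≠ j → ∀ x ∈ I i, ∀ y ∈ I j, x * y = y * x
  /-- they are Lie algebras -/
  bracket : ∀ i, ∀ x ∈ I i, ∀ y ∈ I i, x * y - y * x ∈ I i
  /-- they are simple and not abelian -/
  simple : ∀ i, ∀ N : Submodule ℂ (EndC C), N ≤ I i → (∀ x ∈ I i, ∀ y ∈ N, x * y - y * x ∈ N) →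
    N = ⊥ ∨ N = I i
  nonabelian : ∀ i, ∃ x ∈ I i, ∃ y ∈ I i, x * y ≠ y * x

/-- The ideal `J` acts nontrivially on the image of the projector `E`. -/
def ActsOn (E : EndC C) (J : Submodule ℂ (EndC C)) : Prop := ∃ x ∈ J, E * x ≠ 0

/-- The ideal `J` is compact: it commutes with the complex structure. -/
def IsCompact (J : Submodule ℂ (EndC C)) : Prop :=
  ∀ x ∈ J, complexStructure C * x = x * complexStructure C

/-- An **identification** of simple ideals: an equivalence relation, stable under the automorphisms of
the field `ℂ` (which act on the entries of the matrices), such that equivalent ideals have the same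
dimension, are both compact or both noncompact, and do not both act nontrivially on the same good
part, if they are different. -/
structure IsIdentification {k : ℕ} (I : Fin k → Submodule ℂ (EndC C)) (r : Fin k → Fin k → Prop) :
    Prop where
  equivalence : Equivalence r
  galois : ∀ (τ : ℂ ≃+* ℂ) (i i' j j' : Fin k), (∀ x : EndC C, x ∈ I i ↔ x.map τ ∈ I i') →
    (∀ x : EndC C, x ∈ I j ↔ x.map τ ∈ I j') → r i j → r i' j'
  dimension : ∀ i j, r i j → finrank ℂ (I i) = finrank ℂ (I j)
  compact : ∀ i j, r i j → (IsCompact C (I i) ↔ IsCompact C (I j))
  part : ∀ i j, i ≠ j → r i j → ∀ E, GoodPart C E → ¬ (ActsOn C E (I i) ∧ ActsOn C E (I j))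

end Parts

/-- **Theorem.** Let `M` be any 1-motive over `ℚ̄` whose abelian part `A` is a direct factor of an abelian
variety `C`, let `I` be the list of the simple ideals of `[𝔤, 𝔤] ⊗ ℂ`, where `𝔤` is the Lie algebra of the
Hodge group of `C`, assume that every simple ideal acts nontrivially on a good part of `H_1(C, ℂ)` and
that the only identification of simple ideals is the equality, and let `G` be an algebraic group over
`ℚ` with a torsor over `ℚ̄` which contains the comparison isomorphism of `M`.

1. `G` contains `exp (t Z)` for all complex numbers `t` and all `Z` in the derived algebra of the Lie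
   algebra of the Mumford-Tate group of `M`.
2. If the centre of the Lie algebra of the Hodge group of `C` is rigid, or if `C` has no factor of type
   IV, then the Mumford-Tate group of `M` is contained in `G`. -/
theorem result (g n s : ℕ) (A : AbVarG g) (u : Fin n → Fin g → ℂ) (v : Fin s → Fin g → ℂ)
    (ℓ : Fin n → Fin s → ℂ) (hM : IsOneMotive A u v ℓ)
    (g' : ℕ) (C : AbVar g') (f : A.toAbVar.H1 →ₗ[ℚ] C.H1) (p : C.H1 →ₗ[ℚ] A.toAbVar.H1)
    (hF : IsFactor A.toAbVar C f p) (k : ℕ) (I : Fin k → Submodule ℂ (EndC C))
    (hI : SimpleIdeals C I) (hW : ∀ i, ∃ E, GoodPart C E ∧ ActsOn C E (I i))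
    (hr : ∀ r, IsIdentification C I r → ∀ i j, r i j → i = j)
    (G : Subgroup (GL (Betti g n s) ℂ)) (hG : IsAlgebraicSubgroup G)
    (hP : ContainsPeriods A u v ℓ G) :
    (∀ Z ∈ derived (mtLie A u v ℓ), ∀ t : ℂ, IsIn G (NormedSpace.exp (t • cplx Z))) ∧
      (RigidCentre C ∨ NoFactorOfTypeIV C → mumfordTate A u v ℓ ≤ G) := by
  have hder : derivedC C = Pool.Agent.K6.H85.SM.cM (Pool.Agent.Y102.der C.NA) := rfl
  have h1 : Pool.Agent.K6.H85.SM.Ideals
      (Pool.Agent.K6.H85.SM.cM (Pool.Agent.Y102.der C.NA)) I :=
    ⟨hI.le, hI.sum, hI.commute, hI.bracket, hI.simple, hI.nonabelian⟩
  have h2 : Pool.Agent.K6.H85.SC.GPart C (matE (2 * g') 1) := by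
    refine Pool.Agent.K6.H85.SM.gPart_one h1 (fun i => ?_) fun r hr' => hr r
      ⟨hr'.equiv, hr'.galois, hr'.rank, hr'.compact, fun i j hij h E hE hc => ?_⟩
    · obtain ⟨E, hE, hEi⟩ := hW i
      exact ⟨E, hE.toGPart, hEi⟩
    · obtain ⟨⟨x, hx, hx0⟩, ⟨y, hy, hy0⟩⟩ := hc
      rcases hr'.part i j hij h E hE.toGPart with h3 | h3
      · exact hx0 (h3 x hx)
      · exact hy0 (h3 y hy)
  have h3 := Pool.Agent.K6.H85.SM.dm_one (hfac hF)
  refine ⟨fun Z hZ t => Pool.Agent.K6.H85.SC.main_twoG hM hG hP hF h2 h3 hZ t,
    fun h => Pool.Agent.K6.H85.SC.main_threeG hM hG hP hF h2 h3 ?_⟩
  rcases h with h | h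
  · exact h.toRigid C
  · exact Pool.Agent.K6.H85.SC.rigid_of_NT4 fun P h1 h2 h3 =>
      h P (C.mem_EA.1 h1) (fun X hX => h2 X (C.mem_EA.2 hX)) h3

end Pool.Agent.Results.MP_5d33ca_ag.OneMotivesManyParts
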